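import Pool.Agent.Helper31.RG.Goals

/-!
# Range concatenation grammars: a local system is described by numbers
-/

namespace Pool.Agent.Helper69.RG.PkCODE

open Pool.Agent.Helper65.LinSpace Pool.Agent.Helper78 Pool.Agent.Helper78.Mpc
  Pool.Agent.Helper78.Xor Pool.Agent.Helper95.BG Pool.Agent.Helper31.RG Finset

theorem dig_two_pow (s t : ℕ) : dig 2 (2 ^ s) t = 1 ↔ t = s := by
  unfold dig
  rcases lt_trichotomy t s with h | h | h
  · have h1 : (2 : ℕ) ^ s / 2 ^ t = 2 ^ (s - t) := Nat.pow_div h.le (by norm_num)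
    rw [h1]
    obtain ⟨d, hd⟩ : ∃ d, s - t = d + 1 := ⟨s - t - 1, by omega⟩
    rw [hd, pow_succ, Nat.mul_mod_left]
    constructor
    · intro h2
      omega
    · intro h2
      omega
  · subst h
    rw [Nat.div_self (by positivity)]
    simp
  · have h1 : (2 : ℕ) ^ s / 2 ^ t = 0 :=
      Nat.div_eq_of_lt (Nat.pow_lt_pow_right (by norm_num) h)
    rw [h1]
    constructor
    · intro h2
      simp at h2
    · intro h2
      omega

theorem pair_inj {N a b c d : ℕ} (hb : b < N) (hd : d < N)
    (h : a * N + b = c * N + d) : a = c ∧ b = d := by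
  have hN : 0 < N := by omega
  have h1 : (a * N + b) / N = a := by
    rw [mul_comm, Nat.mul_add_div hN, Nat.div_eq_of_lt hb, add_zero]
  have h2 : (c * N + d) / N = c := by
    rw [mul_comm, Nat.mul_add_div hN, Nat.div_eq_of_lt hd, add_zero]
  have h3 : a = c := by rw [← h1, h, h2]
  subst h3
  exact ⟨rfl, by omega⟩

theorem sl_length {T : Type} (w : List T) {i j : ℕ} (hj : j ≤ w.length) :
    (sl w i j).length = j - i := by
  unfold sl
  rw [List.length_take, List.length_drop]
  omega

section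

variable {T : Type}

/-- The length (cut off at `2`) and the first letter of a piece, in a finite type. -/
def pw (u : List T) : Option (Bool × T) := u.head?.map fun t => (decide (2 ≤ u.length), t)

/-- The embedding of this finite type. -/
def eP : Option (Bool × T) → ℕ × Option T
  | none => (0, none)
  | some (b, t) => (if b then 2 else 1, some t)

theorem eP_pw (u : List T) : eP (pw u) = (min u.length 2, u.head?) := by
  rcases u with _ | ⟨a, _ | ⟨b, u⟩⟩
  · rfl
  · simp [pw, eP]
  · simp [pw, eP]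

theorem eP_inj : Function.Injective (eP (T := T)) := by
  intro x y h
  rcases x with _ | ⟨a, t⟩ <;> rcases y with _ | ⟨b, s⟩
  · rfl
  · simp [eP] at h
  · simp [eP] at h
  · simp only [eP, Prod.mk.injEq, Option.some.injEq] at h
    obtain ⟨h1, h2⟩ := h
    subst h2
    cases a <;> cases b <;> simp_all

/-- The code of the data of a piece. -/
def cP (q : ℕ) (τ : T → ℕ) : Option (Bool × T) → ℕ
  | none => 0
  | some (b, t) => (if b then 2 else 1) * 2 ^ q + τ t

theorem cP_lt {q : ℕ} {τ : T → ℕ} (hτ : ∀ t, τ t < 2 ^ q) (x : Option (Bool × T)) :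
    cP q τ x < 2 ^ (q + 2) := by
  have hq : 0 < 2 ^ q := by positivity
  rw [pow_add]
  rcases x with _ | ⟨a, t⟩
  · simp only [cP]
    positivity
  · have := hτ t
    cases a
    · simp only [cP, Bool.false_eq_true, if_false]
      omega
    · simp only [cP, if_true]
      omega

theorem cP_inj {q : ℕ} {τ : T → ℕ} (hτ : ∀ t, τ t < 2 ^ q) (hi : Function.Injective τ) :
    Function.Injective (cP q τ) := by
  have hq : 0 < 2 ^ q := by positivity
  intro x y h
  rcases x with _ | ⟨a, t⟩ <;> rcases y with _ | ⟨b, s⟩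
  · rfl
  · exfalso
    simp only [cP] at h
    cases b
    · simp only [Bool.false_eq_true, if_false] at h
      omega
    · simp only [if_true] at h
      omega
  · exfalso
    simp only [cP] at h
    cases a
    · simp only [Bool.false_eq_true, if_false] at h
      omega
    · simp only [if_true] at h
      omega
  · simp only [cP] at h
    obtain ⟨h1, h2⟩ := pair_inj (hτ t) (hτ s) h
    rw [hi h2]
    cases a <;> cases b <;> simp_all

theorem cP_sl {q : ℕ} {τ : T → ℕ} (w : List T) (lt : ℕ → ℕ)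
    (hlt : ∀ (i : ℕ) (h : i < w.length), lt i = τ w[i]) {a z : ℕ} (ha : a ≤ z)
    (hz : z ≤ w.length) :
    cP q τ (pw (sl w a z)) = ifz (z - a) 0 (min (z - a) 2 * 2 ^ q + lt a) := by
  have hl := sl_length w (i := a) hz
  rcases Nat.eq_or_lt_of_le ha with h | h
  · subst h
    have h1 : sl w a a = [] := by
      unfold sl
      simp
    rw [h1, Nat.sub_self]
    rfl
  · rw [ifz_pos (by omega), hlt a (by omega)]
    have h1 : (sl w a z).head? = some (w[a]'(by omega)) := by
      unfold sl
      rw [List.drop_eq_getElem_cons (by omega)]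
      obtain ⟨d, hd⟩ : ∃ d, z - a = d + 1 := ⟨z - a - 1, by omega⟩
      rw [hd, List.take_succ_cons]
      rfl
    unfold pw
    rw [h1, Option.map_some, hl]
    simp only [cP]
    congr 2
    by_cases h2 : 2 ≤ z - a
    · rw [min_eq_right h2, if_pos (by simpa using h2)]
    · rw [if_neg (by simpa using h2)]
      omega

end

/-- The code of a value. -/
def oc {X : Type} (c : X → ℕ) : Option X → ℕ
  | none => 0
  | some x => c x + 1

theorem oc_inj {X : Type} {c : X → ℕ} (h : Function.Injective c) :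
    Function.Injective (oc c) := by
  intro x y hxy
  rcases x with _ | x <;> rcases y with _ | y
  · rfl
  · simp [oc] at hxy
  · simp [oc] at hxy
  · simp only [oc, Nat.add_right_cancel_iff] at hxy
    rw [h hxy]

theorem oc_lt {X : Type} {c : X → ℕ} {n : ℕ} (h0 : 0 < n) (h : ∀ x, c x + 1 < n)
    (x : Option X) : oc c x < n := by
  rcases x with _ | x
  · exact h0
  · exact h x

section

variable {T X : Type}

/-- The data of a cut, in a finite type. -/
abbrev DD (T X : Type) (k r : ℕ) : Type :=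
  (Fin k → Fin (r + 1) → Option (Bool × T)) ×
    ((Fin k → Option (Fin k × Fin (r + 1))) → Option X)

/-- The data of a cut. -/
def emb {k r : ℕ} (δ : DD T X k r) : (Fin k → Fin (r + 1) → ℕ × Option T) ×
    ((Fin k → Option (Fin k × Fin (r + 1))) → Option X) :=
  (fun l i => eP (δ.1 l i), δ.2)

/-- The entry number `p`. -/
def ent1 {k r : ℕ} (f : Fin k → Fin (r + 1) → Option (Bool × T)) (p : ℕ) :
    Option (Bool × T) :=
  if h : p / (r + 1) < k then f ⟨p / (r + 1), h⟩ ⟨p % (r + 1), Nat.mod_lt _ (Nat.succ_pos r)⟩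
  else none

theorem ent1_eq {k r : ℕ} (f : Fin k → Fin (r + 1) → Option (Bool × T)) (l : Fin k)
    (i : Fin (r + 1)) : ent1 f (l.val * (r + 1) + i.val) = f l i := by
  have h1 : (l.val * (r + 1) + i.val) / (r + 1) = l.val := div_eq_block i.isLt
  have h2 : (l.val * (r + 1) + i.val) % (r + 1) = i.val := mod_eq_block i.isLt
  have h3 : (l.val * (r + 1) + i.val) / (r + 1) < k := by
    rw [h1]
    exact l.isLt
  have h4 : (⟨(l.val * (r + 1) + i.val) / (r + 1), h3⟩ : Fin k) = l := Fin.ext h1
  have h5 : (⟨(l.val * (r + 1) + i.val) % (r + 1), Nat.mod_lt _ (Nat.succ_pos r)⟩ :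
    Fin (r + 1)) = i := Fin.ext h2
  unfold ent1
  rw [dif_pos h3, h4, h5]

theorem idx_lt {k r : ℕ} (l : Fin k) (i : Fin (r + 1)) :
    l.val * (r + 1) + i.val < k * (r + 1) := by
  have h1 := Nat.mul_le_mul_right (r + 1) (show l.val + 1 ≤ k from l.isLt)
  have h2 := i.isLt
  rw [Nat.succ_mul] at h1
  omega

/-- The first code. -/
def cA (q k r : ℕ) (τ : T → ℕ) (δ : DD T X k r) : ℕ :=
  tab (2 ^ (q + 2)) (k * (r + 1)) fun p => cP q τ (ent1 δ.1 p)

/-- The second code. -/
noncomputable def cB (q k r : ℕ) (c : X → ℕ) (δ : DD T X k r) : ℕ :=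
  tab (2 ^ q) ((k * (r + 1) + 1) ^ k) fun π => oc c (δ.2 (patt k r π))

/-- The code of the data of a cut. -/
noncomputable def cD (q k r : ℕ) (τ : T → ℕ) (c : X → ℕ) (δ : DD T X k r) : ℕ :=
  cA q k r τ δ * (2 ^ q) ^ ((k * (r + 1) + 1) ^ k) + cB q k r c δ

theorem cB_lt {q k r : ℕ} {c : X → ℕ} (hc : ∀ x, c x + 1 < 2 ^ q) (δ : DD T X k r) :
    cB q k r c δ < (2 ^ q) ^ ((k * (r + 1) + 1) ^ k) :=
  tab_lt fun _ _ => oc_lt (by positivity) hc _

theorem cA_lt {q k r : ℕ} {τ : T → ℕ} (hτ : ∀ t, τ t < 2 ^ q) (δ : DD T X k r) :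
    cA q k r τ δ < (2 ^ (q + 2)) ^ (k * (r + 1)) :=
  tab_lt fun _ _ => cP_lt hτ _

theorem cD_lt {q k r : ℕ} {τ : T → ℕ} {c : X → ℕ} (hτ : ∀ t, τ t < 2 ^ q)
    (hc : ∀ x, c x + 1 < 2 ^ q) (δ : DD T X k r) :
    cD q k r τ c δ < (2 ^ (q + 2)) ^ (k * (r + 1)) * (2 ^ q) ^ ((k * (r + 1) + 1) ^ k) := by
  have h1 := cB_lt hc δ
  have h2 := Nat.mul_le_mul_right ((2 ^ q) ^ ((k * (r + 1) + 1) ^ k))
    (show cA q k r τ δ + 1 ≤ _ from cA_lt hτ δ)
  rw [Nat.succ_mul] at h2
  unfold cD
  omega

theorem cD_inj {q k r : ℕ} {τ : T → ℕ} {c : X → ℕ} (hτ : ∀ t, τ t < 2 ^ q)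
    (hτi : Function.Injective τ) (hc : ∀ x, c x + 1 < 2 ^ q) (hci : Function.Injective c)
    (hp : ∀ π : Fin k → Option (Fin k × Fin (r + 1)), ∃ π' < (k * (r + 1) + 1) ^ k,
      patt k r π' = π) : Function.Injective (cD (T := T) q k r τ c) := by
  intro x y h
  obtain ⟨h1, h2⟩ := pair_inj (cB_lt hc x) (cB_lt hc y) h
  refine Prod.ext ?_ ?_
  · funext l i
    have h3 : dig (2 ^ (q + 2)) (cA q k r τ x) (l.val * (r + 1) + i.val) =
        dig (2 ^ (q + 2)) (cA q k r τ y) (l.val * (r + 1) + i.val) := by rw [h1]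
    unfold cA at h3
    rw [dig_tab (fun _ _ => cP_lt hτ _) (idx_lt l i), dig_tab (fun _ _ => cP_lt hτ _) (idx_lt l i),
      ent1_eq, ent1_eq] at h3
    exact cP_inj hτ hτi h3
  · funext π
    obtain ⟨π', hπ', rfl⟩ := hp π
    have h3 : dig (2 ^ q) (cB q k r c x) π' = dig (2 ^ q) (cB q k r c y) π' := by rw [h2]
    unfold cB at h3
    rw [dig_tab (fun _ _ => oc_lt (by positivity) hc _) hπ',
      dig_tab (fun _ _ => oc_lt (by positivity) hc _) hπ'] at h3
    exact oc_inj hci h3

end

theorem thm (hW : G_WRD) : Pool.Agent.Helper31.RG.G_CODE := by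
  classical
  intro T _ k r K hk ⟨X, _, μ, Ψ, F, hμ, hF⟩
  obtain ⟨nX, ⟨eX⟩⟩ := Finite.exists_equiv_fin X
  obtain ⟨nT, ⟨eT⟩⟩ := Finite.exists_equiv_fin T
  obtain ⟨nD, ⟨eD⟩⟩ := Finite.exists_equiv_fin (DD T X k r)
  set c : X → ℕ := fun x => (eX x : ℕ) with hc
  have hcN : ∀ x, c x < nX := fun x => (eX x).isLt
  have hci : Function.Injective c := fun x y h => eX.injective (Fin.ext h)
  set τ : T → ℕ := fun x => (eT x : ℕ) with hτ
  have hτN : ∀ x, τ x < nT := fun x => (eT x).isLt
  have hτi : Function.Injective τ := fun x y h => eT.injective (Fin.ext h)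
  set δn : DD T X k r → ℕ := fun x => (eD x : ℕ) with hδ
  have hδN : ∀ x, δn x < nD := fun x => (eD x).isLt
  have hδi : Function.Injective δn := fun x y h => eD.injective (Fin.ext h)
  set q : ℕ := nD + nX + nT + 1 with hq
  have hqq : q < 2 ^ q := Nat.lt_two_pow_self
  have hτq : ∀ t, τ t < 2 ^ q := fun t => by
    have := hτN t
    omega
  have hcq : ∀ x, c x + 1 < 2 ^ q := fun x => by
    have := hcN x
    omega
  have hδq : ∀ x, δn x < q := fun x => by
    have := hδN x
    omega
  have hpat := (hW T [] k r 1 hk (by simp)).2.1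
  have hcD : Function.Injective (cD (T := T) q k r τ c) := cD_inj hτq hτi hcq hci hpat
  -- the tables
  set btf : ℕ → ℕ := fun z => if h : ∃ δ : DD T X k r, cD q k r τ c δ = z then
    2 ^ δn h.choose else 0 with hbtf
  have hbtf_lt : ∀ z, btf z < 2 ^ q := by
    intro z
    simp only [hbtf]
    split_ifs with h
    · exact Nat.pow_lt_pow_right (by norm_num) (hδq _)
    · positivity
  set BT : ℕ := tab (2 ^ q) ((2 ^ (q + 2)) ^ (k * (r + 1)) *
    (2 ^ q) ^ ((k * (r + 1) + 1) ^ k)) btf with hBT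
  have hbt : ∀ δ : DD T X k r, btR q k r BT (cA q k r τ δ) (cB q k r c δ) = 2 ^ δn δ := by
    intro δ
    unfold btR
    have h1 := cD_lt hτq hcq δ
    have h2 : cA q k r τ δ * (2 ^ q) ^ ((k * (r + 1) + 1) ^ k) + cB q k r c δ =
      cD q k r τ c δ := rfl
    rw [h2, hBT, dig_tab (fun z _ => hbtf_lt z) h1]
    have h3 : ∃ δ' : DD T X k r, cD q k r τ c δ' = cD q k r τ c δ := ⟨δ, rfl⟩
    simp only [hbtf]
    rw [dif_pos h3, hcD h3.choose_spec]
  set psf : ℕ → ℕ := fun m => c (Ψ (emb '' {δ | dig 2 m (δn δ) = 1})) + 1 with hpsf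
  set PS : ℕ := tab (2 ^ q) (2 ^ q) psf with hPS
  have hps : ∀ m < 2 ^ q, psN q PS m = psf m := by
    intro m hm
    unfold psN
    rw [hPS, dig_tab (fun z _ => hcq _) hm]
  set acf : ℕ → ℕ := fun n => if ∃ x ∈ F, c x + 1 = n then 1 else 0 with hacf
  have hacf_lt : ∀ n, acf n < 2 := by
    intro n
    simp only [hacf]
    split_ifs <;> norm_num
  set AC : ℕ := tab 2 (nX + 1) acf with hAC
  have hac : ∀ x, dig 2 AC (c x + 1) ≠ 0 ↔ x ∈ F := by
    intro x
    have hx := hcN x
    rw [hAC, dig_tab (fun z _ => hacf_lt z) (by omega)]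
    simp only [hacf]
    split_ifs with h
    · obtain ⟨y, hy, hyx⟩ := h
      rw [hci (Nat.succ_injective hyx)] at hy
      simp [hy]
    · constructor
      · intro h1
        exact absurd rfl h1
      · intro h1
        exact absurd ⟨x, h1, rfl⟩ h
  refine ⟨q, BT, PS, AC, τ, hτq, ?_⟩
  intro w N lt hw hlt
  have hN : 0 < N := lt_of_le_of_lt (Nat.zero_le _) hw
  obtain ⟨hW1, -, hW3⟩ := hW T w k r N hk hw
  have key : ∀ d e, pot k 1 N e < d → Ok k N w.length e →
      V q k r N lt (btR q k r BT) (psN q PS) e = c (μ (wd w k N e)) + 1 := by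
    intro d
    induction d with
    | zero =>
      intro e h1
      omega
    | succ d ih =>
      intro e h1 hok
      obtain ⟨hm, hv, hD⟩ := hW3 e hok
      rw [Pool.Agent.Helper31.RG.V_eq, hps _ (orB_lt _ _ _ _)]
      simp only [hpsf]
      congr 2
      rw [hμ (wd w k N e)]
      congr 1
      -- the data of the cut number `z`
      set dc : ℕ → DD T X k r := fun z =>
        (fun l i => pw (pcs w k r N e z l i), val μ (wd w k N e) (pcs w k r N e z)) with hdc
      have htrm : ∀ z, vldB k r N e z = 0 → trm q k r N lt (btR q k r BT)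
          (fun π => V q k r N lt (btR q k r BT) (psN q PS) (yN k r N e z π)) e z =
          2 ^ δn (dc z) := by
        intro z hz
        obtain ⟨-, hz2, hz3⟩ := hv z hz
        rw [← hbt (dc z)]
        unfold trm
        rw [hz, Pool.Agent.Helper31.RG.ifz_zero]
        congr 1
        · refine tab_congr fun p hp => ?_
          obtain ⟨l, i, rfl⟩ : ∃ (l : Fin k) (i : Fin (r + 1)), l.val * (r + 1) + i.val = p := by
            have h2 : p / (r + 1) < k := by
              rw [Nat.div_lt_iff_lt_mul (Nat.succ_pos r)]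
              exact hp
            refine ⟨⟨p / (r + 1), h2⟩, ⟨p % (r + 1), Nat.mod_lt _ (Nat.succ_pos r)⟩, ?_⟩
            exact Nat.div_add_mod' p (r + 1)
          rw [ent1_eq]
          obtain ⟨h2, h3⟩ := hz3 l i
          simp only [hdc, pcs]
          rw [cP_sl w lt hlt h2 h3]
        · refine tab_congr fun π hπ => ?_
          obtain ⟨h2, h3⟩ := hz2 π
          have h4 : meas (subT (pcs w k r N e z) (patt k r π)) = pot k 1 N (yN k r N e z π) := by
            rw [← h3]
            exact (hW3 _ h2).1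
          simp only [hdc, Pool.Agent.Helper31.RG.val]
          rw [h4, hm, hW1 π, ifz_lt01]
          by_cases h5 : injB k r π = 0
          · rw [h5, Pool.Agent.Helper31.RG.ifz_zero]
            by_cases h6 : pot k 1 N (yN k r N e z π) < pot k 1 N e
            · rw [if_pos h6, if_pos ⟨rfl, h6⟩]
              simp only [oc]
              rw [ih _ (by omega) h2, h3]
            · rw [if_neg h6, if_neg (fun h7 => h6 h7.2)]
              rfl
          · rw [ifz_pos h5, if_neg (fun h7 => h5 h7.1)]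
            rfl
      have hemb : ∀ z, emb (dc z) = (infD (pcs w k r N e z),
          val μ (wd w k N e) (pcs w k r N e z)) := by
        intro z
        simp only [hdc, emb, eP_pw]
        rfl
      ext δ'
      simp only [Set.mem_image, Set.mem_ofPred_eq, dat]
      constructor
      · rintro ⟨δ, h2, rfl⟩
        rw [dig_orB] at h2
        obtain ⟨-, z, -, hz1, hz2⟩ := h2
        by_cases hz : vldB k r N e z = 0
        · rw [htrm z hz, dig_two_pow] at hz2
          rw [hδi hz2]
          exact ⟨pcs w k r N e z, (hv z hz).1, hemb z⟩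
        · exfalso
          unfold trm at hz2
          rw [ifz_pos hz] at hz2
          simp [dig] at hz2
      · rintro ⟨D, h2, rfl⟩
        obtain ⟨z, hz1, hz2, rfl⟩ := hD D h2
        refine ⟨dc z, ?_, hemb z⟩
        rw [dig_orB]
        refine ⟨hδq _, z, Nat.zero_le _, hz1, ?_⟩
        rw [htrm z hz2, dig_two_pow]
  have hd0 : dig N (w.length * N) 0 = 0 := by
    unfold dig
    simp
  have hd1 : dig N (w.length * N) 1 = w.length := by
    unfold dig
    rw [pow_one, Nat.mul_div_cancel _ hN, Nat.mod_eq_of_lt hw]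
  have hd2 : ∀ j, 2 ≤ j → dig N (w.length * N) j = 0 := by
    intro j hj
    obtain ⟨i, rfl⟩ : ∃ i, j = i + 1 + 1 := ⟨j - 2, by omega⟩
    unfold dig
    rw [pow_succ, Nat.mul_div_mul_right _ _ hN, pow_succ]
    have h1 : w.length / (N ^ i * N) = 0 := by
      refine Nat.div_eq_of_lt (lt_of_lt_of_le hw ?_)
      exact Nat.le_mul_of_pos_left _ (by positivity)
    rw [h1, Nat.zero_mod]
  have hok : Ok k N w.length (w.length * N) := by
    intro l hl
    rcases Nat.eq_zero_or_pos l with h | h
    · subst h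
      rw [Nat.mul_zero, Nat.zero_add, hd0, hd1]
      exact ⟨Nat.zero_le _, le_rfl⟩
    · rw [hd2 _ (by omega), hd2 _ (by omega)]
      exact ⟨le_rfl, Nat.zero_le _⟩
  have hwd : wd w k N (w.length * N) = fun i => if i.val = 0 then w else [] := by
    funext i
    unfold wd
    split_ifs with h
    · rw [h, Nat.mul_zero, Nat.zero_add, hd0, hd1]
      unfold sl
      simp
    · rw [hd2 _ (by omega), hd2 _ (by omega)]
      unfold sl
      simp
  rw [key _ _ (Nat.lt_succ_self _) hok, hac, hwd]
  exact hF w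

end Pool.Agent.Helper69.RG.PkCODE
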